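import Pool.Agent.KS6_95.RP.Fld

set_option autoImplicit false

/-! Classification of the Finslerian projective metrics with symmetric perpendicularity, complete or
not. -/

namespace Pool.Agent.KS6_95.RP

open Real Set Filter Topology Metric Pool.Agent.Helper831.PM

/-- the projective map `x ↦ (x - o) / (D x + b)` -/
noncomputable def phi (D : (ℝ × ℝ) →L[ℝ] ℝ) (b : ℝ) (o x : ℝ × ℝ) : ℝ × ℝ :=
  (D x + b)⁻¹ • (x - o)

variable {M : Set (ℝ × ℝ)} {F d : ℝ × ℝ → ℝ × ℝ → ℝ}

/-- integral along a segment of a function proportional to `(σ + t τ)⁻²` -/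
lemma int_inv_sq {σ τ : ℝ} (h0 : 0 < σ) (h1 : 0 < σ + τ) :
    ∫ t in (0 : ℝ)..1, 1 / (σ + t * τ) ^ 2 = 1 / (σ * (σ + τ)) := by
  have hpos : ∀ t ∈ uIcc (0 : ℝ) 1, 0 < σ + t * τ := by
    intro t ht
    rw [uIcc_of_le zero_le_one] at ht
    have e : σ + t * τ = (1 - t) * σ + t * (σ + τ) := by ring
    rw [e]
    rcases eq_or_lt_of_le ht.1 with h | h
    · rw [← h]; linarith
    · have := mul_pos h h1
      have := mul_nonneg (sub_nonneg.2 ht.2) h0.le
      linarith
  have hder : ∀ t ∈ uIcc (0 : ℝ) 1, HasDerivAt (fun t : ℝ => t / (σ * (σ + t * τ)))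
      (1 / (σ + t * τ) ^ 2) t := by
    intro t ht
    have hp := (hpos t ht).ne'
    have d1 : HasDerivAt (fun t : ℝ => σ * (σ + t * τ)) (σ * τ) t := by
      have := ((hasDerivAt_id t).mul_const τ).const_add σ
      have := this.const_mul σ
      simpa using this
    have d2 := (hasDerivAt_id t).div d1 (mul_ne_zero h0.ne' hp)
    refine d2.congr_deriv ?_
    simp only [id]
    field_simp
    ring
  have hcont : ContinuousOn (fun t : ℝ => 1 / (σ + t * τ) ^ 2) (uIcc 0 1) := by
    apply ContinuousOn.div continuousOn_const (by fun_prop)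
    intro t ht
    exact (pow_pos (hpos t ht) 2).ne'
  rw [intervalIntegral.integral_eq_sub_of_hasDerivAt hder hcont.intervalIntegrable]
  simp

/-- **Classification (necessity).** -/
theorem classify (A : IncMetric M d) (hF : FinslerOn M F d) (hne : M.Nonempty)
    (hs : ∀ O ∈ M, ∀ u v : ℝ × ℝ, u ≠ 0 → v ≠ 0 → Perp M d O u v → Perp M d O v u) :
    (∀ x ∈ M, IsEuclid (F x)) ∨
      ∃ (N : ℝ × ℝ → ℝ) (D : (ℝ × ℝ) →L[ℝ] ℝ) (b : ℝ) (o : ℝ × ℝ), RadonNorm N ∧ o ∈ M ∧
        (∀ x ∈ M, 0 < D x + b) ∧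
        ∀ x ∈ M, ∀ y ∈ M, d x y = N (phi D b o y - phi D b o x) := by
  have C := (A.preCore hF hs).core
  have P := C.pg
  rcases P.dich with h | ⟨D, b, h⟩
  · left
    intro x hx
    obtain ⟨a, b, c, h1, h2, h3⟩ := h x hx
    have hs := P.sg_pos hx
    set s := PG.sg (GG F) x with hsd
    refine ⟨a / s ^ 4, b / s ^ 4, c / s ^ 4, by positivity, ?_, fun u => ?_⟩
    · have : a / s ^ 4 * (c / s ^ 4) - (b / s ^ 4) ^ 2 = (a * c - b ^ 2) / s ^ 8 := by
        field_simp
      rw [this]; positivity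
    · rw [C.F_eq hx, ← hsd, div_pow, h3]
      field_simp
  · right
    obtain ⟨o, ho⟩ := hne
    have hl : ∀ x ∈ M, 0 < D x + b := fun x hx => by rw [← h x hx]; exact P.sg_pos hx
    have hlo := hl o ho
    have hR : RadonNorm (fun u => (D o + b)⁻¹ * GG F o u) := (P.rad o ho).scale (inv_pos.2 hlo)
    refine ⟨_, D, b, o, hR, ho, hl, ?_⟩
    intro x hx y hy
    have hlx := hl x hx
    have hly := hl y hy
    obtain ⟨u, hu⟩ : ∃ u, u = y - x := ⟨_, rfl⟩
    have hyx : D y + b = (D x + b) + D u := by rw [hu, map_sub]; ring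
    -- the distance
    have hd1 : d x y = GG F x u / ((D x + b) * (D y + b)) := by
      rw [A.int_eq hF hx hy, ← hu]
      have e : ∀ t ∈ uIcc (0 : ℝ) 1, F (x + t • u) u =
          GG F x u * (1 / ((D x + b) + t * D u) ^ 2) := by
        intro t ht
        rw [uIcc_of_le zero_le_one] at ht
        have hm : x + t • u ∈ M := by
          apply A.convex.segment_subset hx hy
          rw [segment_eq_image']
          exact ⟨t, ht, by rw [← hu]⟩
        rw [C.F_eq hm, P.line x hx u t hm, h _ hm, map_add, map_smul, smul_eq_mul]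
        have : D x + t * D u + b = D x + b + t * D u := by ring
        rw [this, mul_one_div]
      rw [intervalIntegral.integral_congr e, intervalIntegral.integral_const_mul,
        int_inv_sq hlx (by rw [← hyx]; exact hly), ← hyx, mul_one_div]
    -- the field
    obtain ⟨δ, hδ⟩ : ∃ δ, δ = D u := ⟨_, rfl⟩
    obtain ⟨W, hW⟩ : ∃ W, W = (D x + b) • u - D u • (x - o) := ⟨_, rfl⟩
    have hDW : D W = D u * (D o + b) := by
      rw [hW, map_sub, map_smul, map_smul, map_sub, smul_eq_mul, smul_eq_mul]; ring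
    have hfc := field_const P (D := D) (b := b) h (v₀ := W - δ • o) (δ := δ)
      (by rw [map_sub, map_smul, hDW, hδ, smul_eq_mul]; ring) hx ho
    have e1 : W - δ • o + δ • x = (D x + b) • u := by
      rw [hW, hδ]; module
    have e2 : W - δ • o + δ • o = W := by module
    rw [e1, e2, (P.rad x hx).1.smul, abs_of_pos hlx, mul_div_cancel_left₀ _ hlx.ne'] at hfc
    have e3 : phi D b o y - phi D b o x = ((D x + b) * (D y + b))⁻¹ • W := by
      have h1 : (D x + b) * (D y + b) ≠ 0 := by positivity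
      have : (y - o) = (x - o) + u := by rw [hu]; abel
      unfold phi
      rw [this, hW]
      obtain ⟨z, hz⟩ : ∃ z, z = x - o := ⟨_, rfl⟩
      rw [← hz, smul_sub, smul_smul, smul_smul, smul_add]
      have k1 : ((D x + b) * (D y + b))⁻¹ * (D x + b) = (D y + b)⁻¹ := by field_simp
      have k2 : ((D x + b) * (D y + b))⁻¹ * D u = (D x + b)⁻¹ - (D y + b)⁻¹ := by
        rw [hyx] at hly ⊢
        field_simp
        ring
      rw [k1, k2]
      module
    rw [hd1, e3]
    show _ = (D o + b)⁻¹ * GG F o (((D x + b) * (D y + b))⁻¹ • W)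
    rw [(P.rad o ho).1.smul, abs_of_pos (by positivity), hfc]
    field_simp

/-! ### Sufficiency -/

/-- a foot gives a Birkhoff orthogonal pair in the tangent plane -/
lemma foot_bk (A : IncMetric M d) (hF : FinslerOn M F d) {X O v : ℝ × ℝ} (hX : X ∈ M) (hO : O ∈ M)
    (_hne : X ≠ O) (hf : ∀ t : ℝ, O + t • v ∈ M → d X O ≤ d X (O + t • v)) :
    Bk (F O) (X - O) v := by
  intro s
  by_contra hcon
  push Not at hcon
  obtain ⟨u, hu⟩ : ∃ u, u = X - O := ⟨_, rfl⟩
  rw [← hu] at hcon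
  have hN := hF.norm O hO
  set g := F O u - F O (u + s • v) with hg
  have hg0 : 0 < g := by rw [hg]; linarith
  set ε := g / (2 * (‖u‖ + ‖u + s • v‖ + 1)) with hε
  have hε0 : 0 < ε := by positivity
  obtain ⟨δ, hδ, sub, est⟩ := A.near hF hO hε0
  -- a point between `X` and `O` close to `O`
  obtain ⟨t, ht0, ht1', htδ⟩ : ∃ t : ℝ, 0 < t ∧ t ≤ 1 ∧ t < δ / (‖u‖ + ‖s • v‖ + 1) := by
    have : 0 < δ / (‖u‖ + ‖s • v‖ + 1) := by positivity
    refine ⟨min 1 (δ / (‖u‖ + ‖s • v‖ + 1) / 2), by positivity, min_le_left _ _, ?_⟩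
    exact (min_le_right _ _).trans_lt (by linarith)
  have hseg : O + t • u ∈ segment ℝ X O := by
    rw [segment_symm, segment_eq_image']
    exact ⟨t, ⟨ht0.le, ht1'⟩, by rw [← hu]⟩
  have htM : O + t • u ∈ M := A.convex.segment_subset hX hO hseg
  have heq : d X (O + t • u) + d (O + t • u) O = d X O := (A.geodesic X hX _ htM O hO).2 hseg
  have ht1 : t * (‖u‖ + ‖s • v‖ + 1) < δ := by
    rwa [lt_div_iff₀ (by positivity)] at htδ
  have b1 : O + t • u ∈ ball O δ := by
    rw [mem_ball, dist_eq_norm, add_sub_cancel_left, norm_smul, Real.norm_eq_abs, abs_of_pos ht0]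
    nlinarith [norm_nonneg (s • v)]
  have b2 : O + (-(t * s)) • v ∈ ball O δ := by
    rw [mem_ball, dist_eq_norm, add_sub_cancel_left]
    have : (-(t * s)) • v = (-t) • (s • v) := by module
    rw [this, norm_smul, Real.norm_eq_abs, abs_neg, abs_of_pos ht0]
    nlinarith [norm_nonneg u]
  have b0 : O ∈ ball O δ := mem_ball_self hδ
  have h1 := hf (-(t * s)) (sub b2)
  have h2 := A.triangle X hX _ htM _ (sub b2)
  have h3 : d (O + t • u) O ≤ d (O + t • u) (O + (-(t * s)) • v) := by linarith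
  have e1 := est _ b1 _ b0
  have e2 := est _ b1 _ b2
  have r1 : O - (O + t • u) = (-t) • u := by module
  have r2 : O + (-(t * s)) • v - (O + t • u) = (-t) • (u + s • v) := by module
  rw [r1, hN.smul, norm_smul, Real.norm_eq_abs, abs_neg, abs_of_pos ht0] at e1
  rw [r2, hN.smul, norm_smul, Real.norm_eq_abs, abs_neg, abs_of_pos ht0] at e2
  have h4 : t * g ≤ t * (ε * (‖u‖ + ‖u + s • v‖)) := by
    rw [hg]
    linarith [(abs_le.1 e1).1, (abs_le.1 e2).2]
  have h5 := le_of_mul_le_mul_left h4 ht0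
  have h6 : ε * (‖u‖ + ‖u + s • v‖ + 1) = g / 2 := by rw [hε]; field_simp
  nlinarith

/-- Birkhoff orthogonality for a Euclidean norm -/
lemma euclid_bk {N : ℝ × ℝ → ℝ} {a b c : ℝ} (_h0 : 0 < a) (_h1 : 0 < a * c - b ^ 2)
    (hN : ∀ u, N u ^ 2 = a * u.1 ^ 2 + 2 * b * u.1 * u.2 + c * u.2 ^ 2) (hnn : ∀ u, 0 ≤ N u)
    {u v : ℝ × ℝ} (hb : Bk N u v) :
    a * u.1 * v.1 + b * (u.1 * v.2 + u.2 * v.1) + c * u.2 * v.2 = 0 := by
  set β := a * u.1 * v.1 + b * (u.1 * v.2 + u.2 * v.1) + c * u.2 * v.2 with hβ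
  set q := a * v.1 ^ 2 + 2 * b * v.1 * v.2 + c * v.2 ^ 2 with hq
  have hq0 : 0 ≤ q := by rw [hq, ← hN v]; positivity
  have key : ∀ t : ℝ, 0 ≤ 2 * t * β + t ^ 2 * q := by
    intro t
    have h2 : N u ^ 2 ≤ N (u + t • v) ^ 2 := pow_le_pow_left₀ (hnn u) (hb t) 2
    rw [hN, hN] at h2
    simp only [Prod.fst_add, Prod.snd_add, Prod.smul_fst, Prod.smul_snd, smul_eq_mul] at h2
    rw [hβ, hq]
    nlinarith
  by_contra hne
  have hb2 : 0 < β ^ 2 := by positivity
  have k := key (-β / (q + 1))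
  have e : 2 * (-β / (q + 1)) * β + (-β / (q + 1)) ^ 2 * q = -(β ^ 2 * (q + 2)) / (q + 1) ^ 2 := by
    have : q + 1 ≠ 0 := by positivity
    field_simp
    ring
  rw [e] at k
  have : -(β ^ 2 * (q + 2)) / (q + 1) ^ 2 < 0 := by
    apply div_neg_of_neg_of_pos
    · have : 0 < β ^ 2 * (q + 2) := by positivity
      linarith
    · positivity
  linarith

/-- Riemannian projective metrics have symmetric perpendicularity -/
theorem sym_of_euclid (A : IncMetric M d) (hF : FinslerOn M F d) (hE : ∀ x ∈ M, IsEuclid (F x)) :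
    ∀ O ∈ M, ∀ u v : ℝ × ℝ, u ≠ 0 → v ≠ 0 → Perp M d O u v → Perp M d O v u := by
  intro O hO u v hu hv hp
  obtain ⟨a, b, c, h0, h1, hN⟩ := hE O hO
  have hnn : ∀ w, 0 ≤ F O w := (hF.norm O hO).nonneg
  -- small multiples stay in the domain
  have small : ∀ w : ℝ × ℝ, ∃ s : ℝ, s ≠ 0 ∧ O + s • w ∈ M := by
    intro w
    have hc : ContinuousAt (fun s : ℝ => O + s • w) 0 := by fun_prop
    have ev := hc.eventually (A.isOpen.mem_nhds (by simpa using hO))
    have h3 : ∀ᶠ s in 𝓝[>] (0:ℝ), 0 < s := self_mem_nhdsWithin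
    obtain ⟨s, k1, k2⟩ := ((ev.filter_mono nhdsWithin_le_nhds).and h3).exists
    exact ⟨s, k2.ne', k1⟩
  obtain ⟨s, hs, hsM⟩ := small u
  have hne : O + s • u ≠ O := by
    intro h
    have : s • u = 0 := by simpa using h
    exact smul_ne_zero hs hu this
  have hbk := foot_bk A hF hsM hO hne (fun t ht => hp s t hsM ht)
  rw [add_sub_cancel_left] at hbk
  have hB := euclid_bk h0 h1 hN hnn hbk
  have hB' : a * u.1 * v.1 + b * (u.1 * v.2 + u.2 * v.1) + c * u.2 * v.2 = 0 := by
    simp only [Prod.smul_fst, Prod.smul_snd, smul_eq_mul] at hB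
    have : s * (a * u.1 * v.1 + b * (u.1 * v.2 + u.2 * v.1) + c * u.2 * v.2) = 0 := by linarith
    rcases mul_eq_zero.1 this with h | h
    · exact absurd h hs
    · exact h
  intro r t hr ht
  by_cases hr0 : r = 0
  · rw [hr0, zero_smul, add_zero] at hr ⊢
    rw [A.self hO]
    exact A.nonneg hO ht
  have hne2 : O + r • v ≠ O := by
    intro h
    have : r • v = 0 := by simpa using h
    exact smul_ne_zero hr0 hv this
  obtain ⟨w, hw, hfoot⟩ := A.support hr hO hne2
  have hbk2 := foot_bk A hF hr hO hne2 hfoot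
  rw [add_sub_cancel_left] at hbk2
  have hB2 := euclid_bk h0 h1 hN hnn hbk2
  have hB2' : a * v.1 * w.1 + b * (v.1 * w.2 + v.2 * w.1) + c * v.2 * w.2 = 0 := by
    simp only [Prod.smul_fst, Prod.smul_snd, smul_eq_mul] at hB2
    have : r * (a * v.1 * w.1 + b * (v.1 * w.2 + v.2 * w.1) + c * v.2 * w.2) = 0 := by linarith
    rcases mul_eq_zero.1 this with h | h
    · exact absurd h hr0
    · exact h
  -- `w` is parallel to `u`
  have hpar : Om u w = 0 := by
    -- both are orthogonal to `v`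
    obtain ⟨p, hp1⟩ : ∃ p, p = a * v.1 + b * v.2 := ⟨_, rfl⟩
    obtain ⟨q, hq1⟩ : ∃ q, q = b * v.1 + c * v.2 := ⟨_, rfl⟩
    have hu1 : p * u.1 + q * u.2 = 0 := by rw [hp1, hq1]; linarith
    have hw1 : p * w.1 + q * w.2 = 0 := by rw [hp1, hq1]; linarith
    have hp0 : p * Om u w = 0 := by unfold Om; linear_combination w.2 * hu1 - u.2 * hw1
    have hq0 : q * Om u w = 0 := by unfold Om; linear_combination u.1 * hw1 - w.1 * hu1
    by_contra hO'
    have hp2 : p = 0 := (mul_eq_zero.1 hp0).resolve_right hO'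
    have hq2 : q = 0 := (mul_eq_zero.1 hq0).resolve_right hO'
    have k1 : (a * c - b ^ 2) * v.1 = 0 := by
      have : (a * c - b ^ 2) * v.1 = c * p - b * q := by rw [hp1, hq1]; ring
      rw [this, hp2, hq2]; ring
    have k2 : (a * c - b ^ 2) * v.2 = 0 := by
      have : (a * c - b ^ 2) * v.2 = a * q - b * p := by rw [hp1, hq1]; ring
      rw [this, hp2, hq2]; ring
    exact hv (Prod.ext ((mul_eq_zero.1 k1).resolve_left h1.ne') ((mul_eq_zero.1 k2).resolve_left h1.ne'))
  obtain ⟨κ, hκ⟩ := parallel_of_Om hu hpar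
  have hκ0 : κ ≠ 0 := by rintro rfl; rw [zero_smul] at hκ; exact hw hκ
  have := hfoot (t / κ) (by rw [hκ, smul_smul, div_mul_cancel₀ _ hκ0]; exact ht)
  rwa [hκ, smul_smul, div_mul_cancel₀ _ hκ0] at this

/-- difference of the values of the projective map -/
lemma phi_sub {D : (ℝ × ℝ) →L[ℝ] ℝ} {b : ℝ} {o O u : ℝ × ℝ} {s : ℝ} (h0 : 0 < D O + b)
    (h1 : 0 < D (O + s • u) + b) :
    phi D b o (O + s • u) - phi D b o O =
      (s / ((D O + b) * (D (O + s • u) + b))) • ((D O + b) • u - D u • (O - o)) := by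
  unfold phi
  have e : D (O + s • u) + b = (D O + b) + s * D u := by
    rw [map_add, map_smul, smul_eq_mul]; ring
  have e2 : O + s • u - o = (O - o) + s • u := by abel
  rw [e2]
  obtain ⟨z, hz⟩ : ∃ z, z = O - o := ⟨_, rfl⟩
  rw [← hz, smul_add, smul_sub, smul_smul, smul_smul, smul_smul]
  have k1 : s / ((D O + b) * (D (O + s • u) + b)) * (D O + b) = (D (O + s • u) + b)⁻¹ * s := by
    field_simp
  have k2 : s / ((D O + b) * (D (O + s • u) + b)) * D u = (D O + b)⁻¹ - (D (O + s • u) + b)⁻¹ := by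
    rw [e] at h1 ⊢
    field_simp
    ring
  rw [k1, k2]
  module

/-- Projective images of Radon planes have symmetric perpendicularity -/
theorem sym_of_radon (hM : IsOpen M) {N : ℝ × ℝ → ℝ} (hN : RadonNorm N)
    {D : (ℝ × ℝ) →L[ℝ] ℝ} {b : ℝ} {o : ℝ × ℝ} (hl : ∀ x ∈ M, 0 < D x + b)
    (ho : 0 < D o + b)
    (hd : ∀ x ∈ M, ∀ y ∈ M, d x y = N (phi D b o y - phi D b o x)) :
    ∀ O ∈ M, ∀ u v : ℝ × ℝ, u ≠ 0 → v ≠ 0 → Perp M d O u v → Perp M d O v u := by
  intro O hO u v hu hv hp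
  have hlO := hl O hO
  -- tangent vectors
  obtain ⟨U, hU⟩ : ∃ U, U = (D O + b) • u - D u • (O - o) := ⟨_, rfl⟩
  obtain ⟨V, hV⟩ : ∃ V, V = (D O + b) • v - D v • (O - o) := ⟨_, rfl⟩
  have hne : ∀ w : ℝ × ℝ, w ≠ 0 → (D O + b) • w - D w • (O - o) ≠ 0 := by
    intro w hw h
    have h1 := congrArg D h
    rw [map_sub, map_smul, map_smul, map_sub, map_zero, smul_eq_mul, smul_eq_mul] at h1
    have h2 : D w * (D o + b) = 0 := by linarith
    have h3 : D w = 0 := (mul_eq_zero.1 h2).resolve_right ho.ne'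
    rw [h3, zero_smul, sub_zero] at h
    exact smul_ne_zero hlO.ne' hw h
  have hU0 : U ≠ 0 := by rw [hU]; exact hne u hu
  have hV0 : V ≠ 0 := by rw [hV]; exact hne v hv
  obtain ⟨c, hc⟩ : ∃ c : ℝ × ℝ → ℝ → ℝ, c = fun w s => s / ((D O + b) * (D (O + s • w) + b)) :=
    ⟨_, rfl⟩
  have hphi : ∀ w s, O + s • w ∈ M →
      phi D b o (O + s • w) - phi D b o O = c w s • ((D O + b) • w - D w • (O - o)) := by
    intro w s hs
    rw [hc]; exact phi_sub hlO (hl _ hs)
  -- distances
  have dO : ∀ w s, O + s • w ∈ M → d (O + s • w) O =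
      |c w s| * N ((D O + b) • w - D w • (O - o)) := by
    intro w s hs
    rw [hd _ hs _ hO, ← neg_sub, hN.1.neg, hphi w s hs, hN.1.smul]
  have dd : ∀ w s w' t, O + s • w ∈ M → O + t • w' ∈ M → d (O + s • w) (O + t • w') =
      N (c w s • ((D O + b) • w - D w • (O - o)) - c w' t • ((D O + b) • w' - D w' • (O - o))) := by
    intro w s w' t hs ht
    rw [hd _ hs _ ht, ← hphi w s hs, ← hphi w' t ht, ← hN.1.neg]
    congr 1
    abel
  -- Birkhoff orthogonality
  have small : ∀ w : ℝ × ℝ, ∀ᶠ s in 𝓝 (0:ℝ), O + s • w ∈ M := by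
    intro w
    have hct : ContinuousAt (fun s : ℝ => O + s • w) 0 := by fun_prop
    exact hct.eventually (hM.mem_nhds (by simpa using hO))
  have hbk : Bk N U V := by
    have h3 : ∀ᶠ s in 𝓝[>] (0:ℝ), 0 < s := self_mem_nhdsWithin
    obtain ⟨s, k1, k2⟩ := (((small u).filter_mono nhdsWithin_le_nhds).and h3).exists
    have hcs : 0 < c u s := by
      rw [hc]; have := hl _ k1; positivity
    -- local minimality
    have hloc : ∀ᶠ τ in 𝓝 (0:ℝ), N (c u s • U) ≤ N (c u s • U - τ • V) := by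
      -- the parameter with value `τ`
      obtain ⟨g, hg⟩ : ∃ g : ℝ → ℝ, g = fun τ => τ * (D O + b) ^ 2 / (1 - τ * (D O + b) * D v) :=
        ⟨_, rfl⟩
      have hg0 : ContinuousAt g 0 := by
        rw [hg]
        apply ContinuousAt.div (by fun_prop) (by fun_prop)
        simp
      have e1 : ∀ᶠ τ in 𝓝 (0:ℝ), O + g τ • v ∈ M := by
        have h00 : g 0 = 0 := by rw [hg]; simp
        have := small v
        rw [← h00] at this
        exact hg0.eventually this
      have e2 : ∀ᶠ τ in 𝓝 (0:ℝ), 0 < 1 - τ * (D O + b) * D v := by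
        have hct : Continuous (fun τ : ℝ => 1 - τ * (D O + b) * D v) := by fun_prop
        exact (hct.tendsto 0).eventually_const_lt (by simp)
      filter_upwards [e1, e2] with τ t1 t2
      have hcg : c v (g τ) = τ := by
        rw [hc]
        show g τ / ((D O + b) * (D (O + g τ • v) + b)) = τ
        have h4 : D (O + g τ • v) + b = (D O + b) / (1 - τ * (D O + b) * D v) := by
          rw [map_add, map_smul, smul_eq_mul, hg]
          field_simp
          ring
        rw [h4, hg]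
        field_simp
      have h5 := hp s (g τ) k1 t1
      rw [dO u s k1, dd u s v (g τ) k1 t1, hcg, ← hU, ← hV, ← hN.1.smul] at h5
      exact h5
    -- convexity
    intro r
    by_contra hcon
    push Not at hcon
    -- along the segment towards the better point the norm is smaller
    have hlt : ∀ l : ℝ, 0 < l → l ≤ 1 → N (c u s • U - (-(l * c u s * r)) • V) < N (c u s • U) := by
      intro l hl0 hl1
      have e : c u s • U - (-(l * c u s * r)) • V =
          (1 - l) • (c u s • U) + l • (c u s • (U + r • V)) := by module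
      rw [e]
      refine (hN.1.tri _ _).trans_lt ?_
      rw [hN.1.smul (1 - l), hN.1.smul l, hN.1.smul (c u s) (U + r • V), hN.1.smul (c u s) U,
        abs_of_nonneg (by linarith : 0 ≤ 1 - l), abs_of_pos hl0, abs_of_pos hcs]
      have := mul_pos hl0 hcs
      nlinarith
    have hct : Continuous (fun l : ℝ => -(l * c u s * r)) := by fun_prop
    have ev := (hct.tendsto 0).eventually (by simpa using hloc)
    have h3 : ∀ᶠ s in 𝓝[>] (0:ℝ), 0 < s := self_mem_nhdsWithin
    have h4 : ∀ᶠ l in 𝓝 (0:ℝ), l < 1 := (continuous_id.tendsto (0:ℝ)).eventually_lt_const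
      (by simp)
    obtain ⟨l, ⟨j1, j2⟩, j3⟩ := (((ev.and h4).filter_mono nhdsWithin_le_nhds).and h3).exists
    exact absurd (hlt l j3 (by simpa using j2.le)) (not_lt.2 j1)
  have hbk' := hN.2 U V hbk
  intro r t hr ht
  rw [dO v r hr, dd v r u t hr ht, ← hU, ← hV, ← hN.1.smul]
  by_cases hcr : c v r = 0
  · rw [hcr, zero_smul, hN.1.zero]; exact hN.1.nonneg _
  have e : c v r • V - c u t • U = c v r • (V + (-(c u t / c v r)) • U) := by
    rw [smul_add, smul_smul]
    have : c v r * -(c u t / c v r) = -c u t := by field_simp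
    rw [this]; module
  rw [e, hN.1.smul, hN.1.smul]
  exact mul_le_mul_of_nonneg_left (hbk' _) (abs_nonneg _)

end Pool.Agent.KS6_95.RP
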