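import Pool.Agent.KS6_95.RP.Inc

set_option autoImplicit false

/-! A field of Radon norms which is constant along lines in their own direction and whose Radon
constant is an affine function is the pull-back of one Radon norm by a projective map. -/

namespace Pool.Agent.KS6_95.RP

open Real Set Filter Topology Metric Pool.Agent.Helper831.PM

section field

variable {M : Set (ℝ × ℝ)} {G : ℝ × ℝ → ℝ × ℝ → ℝ}

lemma hasFDerivAt_field (h : PG M G) {x v₀ : ℝ × ℝ} {δ : ℝ} (hx : x ∈ M)
    (hV : v₀ + δ • x ≠ 0) :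
    HasFDerivAt (fun y => G y (v₀ + δ • y))
      (PG.p0 G x (v₀ + δ • x) • OmR (v₀ + δ • x) + δ • dN (G x) (v₀ + δ • x)) x := by
  obtain ⟨V, hVd⟩ : ∃ V, V = v₀ + δ • x := ⟨_, rfl⟩
  rw [← hVd] at hV ⊢
  have hN : HasFDerivAt (G x) (dN (G x) V) V := (h.rad x hx).hasFDerivAt hV
  -- the second variable
  have d2 : HasFDerivAt (fun y => G x (v₀ + δ • y)) (δ • dN (G x) V) x := by
    have hl : HasFDerivAt (fun y : ℝ × ℝ => v₀ + δ • y) (δ • ContinuousLinearMap.id ℝ (ℝ × ℝ)) x :=
      ((hasFDerivAt_id x).const_smul δ).const_add v₀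
    have hN' : HasFDerivAt (G x) (dN (G x) V) (v₀ + δ • x) := by rw [← hVd]; exact hN
    have := hN'.comp x hl
    refine this.congr_fderiv ?_
    ext <;> simp
  -- the first variable
  have d1 : HasFDerivAt (fun y => G y (v₀ + δ • y) - G x (v₀ + δ • y)) (PG.p0 G x V • OmR V) x := by
    rw [hasFDerivAt_iff_isLittleO_nhds_zero, Asymptotics.isLittleO_iff]
    intro c hc
    have t : Tendsto (fun w : ℝ × ℝ => (w, v₀ + δ • (x + w))) (𝓝 0) (𝓝 (0, V)) := by
      have h1 : ContinuousAt (fun w : ℝ × ℝ => (w, v₀ + δ • (x + w))) 0 := by fun_prop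
      have h2 : ((0 : ℝ × ℝ), v₀ + δ • (x + 0)) = (0, V) := by rw [add_zero, hVd]
      rw [← h2]; exact h1
    filter_upwards [t.eventually (h.jointP hx hV c hc)] with w hw
    simp only [smul_apply, OmR_apply, smul_eq_mul]
    have e : G x (v₀ + δ • x) - G x (v₀ + δ • x) = 0 := sub_self _
    rw [e, sub_zero]
    exact hw
  have := d1.add d2
  have e : (fun y => G y (v₀ + δ • y) - G x (v₀ + δ • y)) + (fun y => G x (v₀ + δ • y)) =
      fun y => G y (v₀ + δ • y) := by
    funext y; simp
  rw [e] at this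
  exact this

/-- the field is covariantly constant -/
lemma field_const (h : PG M G) {D : (ℝ × ℝ) →L[ℝ] ℝ} {b : ℝ} (hs : ∀ x ∈ M, PG.sg G x = D x + b)
    {v₀ : ℝ × ℝ} {δ : ℝ} (hv : D v₀ = b * δ) {x y : ℝ × ℝ} (hx : x ∈ M) (hy : y ∈ M) :
    G x (v₀ + δ • x) / (D x + b) = G y (v₀ + δ • y) / (D y + b) := by
  have hl : ∀ z ∈ M, 0 < D z + b := fun z hz => by rw [← hs z hz]; exact h.sg_pos hz
  have hDV : ∀ z, D (v₀ + δ • z) = δ * (D z + b) := by
    intro z; rw [map_add, map_smul, hv, smul_eq_mul]; ring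
  by_cases h0 : v₀ = 0 ∧ δ = 0
  · obtain ⟨h1, h2⟩ := h0
    rw [h1, h2, zero_smul, zero_smul, add_zero, (h.rad x hx).1.zero, (h.rad y hy).1.zero,
      zero_div, zero_div]
  have hV : ∀ z ∈ M, v₀ + δ • z ≠ 0 := by
    intro z hz hzero
    have h1 := hDV z
    rw [hzero, map_zero] at h1
    have h2 : δ = 0 := by
      rcases mul_eq_zero.1 h1.symm with h3 | h3
      · exact h3
      · exact absurd h3 (hl z hz).ne'
    rw [h2, zero_smul, add_zero] at hzero
    exact h0 ⟨hzero, h2⟩
  have hd : ∀ z ∈ M, HasFDerivAt (fun y => G y (v₀ + δ • y) / (D y + b)) (0 : (ℝ × ℝ) →L[ℝ] ℝ) z := by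
    intro z hz
    have hVz := hV z hz
    have r := h.rad z hz
    have d1 := hasFDerivAt_field h hz hVz
    have d2 : HasFDerivAt (fun y => D y + b) D z := D.hasFDerivAt.add_const _
    have d3 := d1.mul ((hasDerivAt_inv (hl z hz).ne').comp_hasFDerivAt z d2)
    have e : (fun y => G y (v₀ + δ • y) / (D y + b)) =
        fun y => G y (v₀ + δ • y) * (D y + b)⁻¹ := by
      funext y; rw [div_eq_mul_inv]
    rw [e]
    refine d3.congr_fderiv ?_
    have hds : PG.ds G z = D := by
      have h1 : HasFDerivAt (PG.sg G) D z := by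
        refine d2.congr_of_eventuallyEq ?_
        filter_upwards [h.op.mem_nhds hz] with w hw
        exact hs w hw
      exact h1.fderiv
    have hrr := h.ds_rr hz hVz
    rw [hds, hs z hz] at hrr
    obtain ⟨V, hVd⟩ : ∃ V, V = v₀ + δ • z := ⟨_, rfl⟩
    obtain ⟨q, hq⟩ : ∃ q, q = rr (G z) V := ⟨_, rfl⟩
    rw [← hVd] at hVz hrr
    rw [← hVd]
    rw [← hq] at hrr
    have hOm : Om V q = G z V := by rw [hq]; exact r.Om_rr hVz
    have hG := r.1.pos hVz
    have hlz := hl z hz
    have hDVz : D V = δ * (D z + b) := by rw [hVd]; exact hDV z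
    refine ContinuousLinearMap.ext fun w => ?_
    have hdec := Om_decomp (u := V) (v := q) (by rw [hOm]; exact hG.ne') w
    have hDw : D w * G z V = Om w q * (δ * (D z + b)) + Om w V * ((D z + b) * PG.p0 G z V) := by
      have h5 := congrArg D hdec
      rw [map_add, map_smul, map_smul, hDVz, hrr, hOm] at h5
      rw [h5]
      simp only [smul_eq_mul]
      rw [Om_swap V w]
      field_simp
    simp only [add_apply, smul_apply, smul_eq_mul, zero_apply, Function.comp_apply, OmR_apply]
    rw [dN_eq_Om, ← hq]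
    have h6 : D w = (Om w q * (δ * (D z + b)) + Om w V * ((D z + b) * PG.p0 G z V)) / G z V := by
      rw [eq_div_iff hG.ne']; exact hDw
    rw [h6]
    field_simp
    ring
  exact h.op.is_const_of_fderiv_eq_zero h.cv.isPreconnected
      (fun z hz => (hd z hz).differentiableAt.differentiableWithinAt)
      (fun z hz => (hd z hz).fderiv) hx hy

end field

end Pool.Agent.KS6_95.RP
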